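import Pool.Agent.H15.IX.TC

/-! MIN: every valuation ring over `k` contains one with residue field `k`. -/

set_option autoImplicit false

open Finset Pool.Agent.H15.IX

namespace Pool.Agent.H53.IX

universe u

section

variable {k E : Type u} [Field k] [Field E] [Algebra k E]

theorem val_const (O : ValuationSubring E) (hk : ∀ c : k, algebraMap k E c ∈ O) {c : k}
    (hc : c ≠ 0) : O.valuation (algebraMap k E c) = 1 := by
  have h0 : algebraMap k E c ≠ 0 := by
    rw [ne_eq, map_eq_zero]
    exact hc
  refine le_antisymm ((O.valuation_le_one_iff _).2 (hk c)) ?_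
  have h1 := (O.valuation_le_one_iff _).2 (hk c⁻¹)
  rw [map_inv₀, map_inv₀] at h1
  have h2 : O.valuation (algebraMap k E c) ≠ 0 := (O.valuation.ne_zero_iff).2 h0
  exact (inv_le_one₀ (zero_lt_iff.2 h2)).1 h1

theorem val_poly [IsAlgClosed k] (O : ValuationSubring E) (hk : ∀ c : k, algebraMap k E c ∈ O)
    (y : E) (hy : ∀ r : k, O.valuation (y - algebraMap k E r) = 1) (q : Polynomial k)
    (hq : q ≠ 0) : O.valuation (Polynomial.aeval y q) = 1 := by
  have hs := (IsAlgClosed.splits q).eq_prod_roots
  rw [hs, map_mul, Polynomial.aeval_C, map_mul,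
    val_const O hk (Polynomial.leadingCoeff_ne_zero.2 hq), one_mul, map_multiset_prod, map_multiset_prod, Multiset.map_map, Multiset.map_map]
  refine Multiset.prod_eq_one fun a ha => ?_
  obtain ⟨r, -, rfl⟩ := Multiset.mem_map.1 ha
  simp only [Function.comp_apply, map_sub, Polynomial.aeval_X, Polynomial.aeval_C]
  exact hy r

/-- a minimal valuation ring over `k` has the residue field `k` -/
theorem rs_of_minimal [IsAlgClosed k] (O : ValuationSubring E)
    (hk : ∀ c : k, algebraMap k E c ∈ O)
    (hmin : ∀ O' : ValuationSubring E, O' ≤ O → (∀ c : k, algebraMap k E c ∈ O') → O ≤ O') :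
    Rs k O := by
  refine ⟨hk, fun x hx => ?_⟩
  by_contra hcon
  push Not at hcon
  have hle : ∀ z ∈ O, O.valuation z ≤ 1 := fun z hz => (O.valuation_le_one_iff z).2 hz
  have hx1 : ∀ c : k, O.valuation (x - algebraMap k E c) = 1 := fun c =>
    le_antisymm (hle _ (sub_mem hx (hk c))) (hcon c)
  have hvx : O.valuation x = 1 := by
    have := hx1 0
    rwa [map_zero, sub_zero] at this
  have hx0 : x ≠ 0 := by
    rintro rfl
    rw [map_zero] at hvx
    exact zero_ne_one hvx
  have hvi : O.valuation x⁻¹ = 1 := by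
    rw [map_inv₀, hvx, inv_one]
  -- the valuation is trivial on `k(x⁻¹)`
  have hy : ∀ r : k, O.valuation (x⁻¹ - algebraMap k E r) = 1 := by
    intro r
    by_cases hr : r = 0
    · rw [hr, map_zero, sub_zero]
      exact hvi
    · have hr0 : algebraMap k E r ≠ 0 := by
        rw [ne_eq, map_eq_zero]
        exact hr
      have e1 : x⁻¹ - algebraMap k E r =
          -(x⁻¹ * algebraMap k E r * (x - algebraMap k E r⁻¹)) := by
        rw [map_inv₀]
        field_simp
        ring
      rw [e1, Valuation.map_neg, map_mul, map_mul, hvi, val_const O hk hr, hx1, one_mul, one_mul]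
  have hpoly := fun (q : Polynomial k) (hq : q ≠ 0) => val_poly O hk x⁻¹ hy q hq
  have hpoly1 : ∀ q : Polynomial k, O.valuation (Polynomial.aeval x⁻¹ q) ≤ 1 := by
    intro q
    by_cases hq : q = 0
    · rw [hq, map_zero, map_zero]
      exact zero_le_one
    · exact (hpoly q hq).le
  -- the subring
  let A : Subring E :=
    { carrier := {a | ∃ p : Polynomial k, O.valuation (a - Polynomial.aeval x⁻¹ p) < 1}
      mul_mem' := by
        rintro a b ⟨p, hp⟩ ⟨q, hq⟩
        refine ⟨p * q, ?_⟩
        have e1 : a * b - Polynomial.aeval x⁻¹ (p * q) =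
            (a - Polynomial.aeval x⁻¹ p) * (b - Polynomial.aeval x⁻¹ q) +
            ((a - Polynomial.aeval x⁻¹ p) * Polynomial.aeval x⁻¹ q +
              Polynomial.aeval x⁻¹ p * (b - Polynomial.aeval x⁻¹ q)) := by
          rw [map_mul]
          ring
        rw [e1]
        refine Valuation.map_add_lt _ ?_ (Valuation.map_add_lt _ ?_ ?_)
        · rw [map_mul]
          exact mul_lt_one_of_lt_of_le hp hq.le
        · rw [map_mul]
          exact mul_lt_one_of_lt_of_le hp (hpoly1 q)
        · rw [map_mul, mul_comm]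
          exact mul_lt_one_of_lt_of_le hq (hpoly1 p)
      one_mem' := ⟨1, by simp⟩
      add_mem' := by
        rintro a b ⟨p, hp⟩ ⟨q, hq⟩
        refine ⟨p + q, ?_⟩
        have e1 : a + b - Polynomial.aeval x⁻¹ (p + q) =
            (a - Polynomial.aeval x⁻¹ p) + (b - Polynomial.aeval x⁻¹ q) := by
          rw [map_add]
          ring
        rw [e1]
        exact Valuation.map_add_lt _ hp hq
      zero_mem' := ⟨0, by simp⟩
      neg_mem' := by
        rintro a ⟨p, hp⟩
        refine ⟨-p, ?_⟩
        have e1 : -a - Polynomial.aeval x⁻¹ (-p) = -(a - Polynomial.aeval x⁻¹ p) := by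
          rw [map_neg]
          ring
        rw [e1, Valuation.map_neg]
        exact hp }
  let I : Ideal A :=
    { carrier := {a | ∃ p : Polynomial k,
        O.valuation ((a : E) - Polynomial.aeval x⁻¹ (Polynomial.X * p)) < 1}
      add_mem' := by
        rintro a b ⟨p, hp⟩ ⟨q, hq⟩
        refine ⟨p + q, ?_⟩
        have e1 : ((a + b : A) : E) - Polynomial.aeval x⁻¹ (Polynomial.X * (p + q)) =
            ((a : E) - Polynomial.aeval x⁻¹ (Polynomial.X * p)) +
              ((b : E) - Polynomial.aeval x⁻¹ (Polynomial.X * q)) := by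
          rw [mul_add, map_add]
          push_cast
          ring
        rw [e1]
        exact Valuation.map_add_lt _ hp hq
      zero_mem' := ⟨0, by simp⟩
      smul_mem' := by
        rintro a b ⟨q, hq⟩
        obtain ⟨p, hp⟩ := a.2
        refine ⟨p * q, ?_⟩
        have e1 : ((a • b : A) : E) - Polynomial.aeval x⁻¹ (Polynomial.X * (p * q)) =
            ((a : E) - Polynomial.aeval x⁻¹ p) *
              ((b : E) - Polynomial.aeval x⁻¹ (Polynomial.X * q)) +
            (((a : E) - Polynomial.aeval x⁻¹ p) * Polynomial.aeval x⁻¹ (Polynomial.X * q) +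
              Polynomial.aeval x⁻¹ p *
                ((b : E) - Polynomial.aeval x⁻¹ (Polynomial.X * q))) := by
          have e2 : ((a • b : A) : E) = (a : E) * (b : E) := rfl
          have e3 : Polynomial.X * (p * q) = p * (Polynomial.X * q) := by ring
          rw [e2, e3, map_mul (Polynomial.aeval x⁻¹) p]
          ring
        rw [e1]
        refine Valuation.map_add_lt _ ?_ (Valuation.map_add_lt _ ?_ ?_)
        · rw [map_mul]
          exact mul_lt_one_of_lt_of_le hp hq.le
        · rw [map_mul]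
          exact mul_lt_one_of_lt_of_le hp (hpoly1 _)
        · rw [map_mul, mul_comm]
          exact mul_lt_one_of_lt_of_le hq (hpoly1 p) }
  have hI : I ≠ ⊤ := by
    intro htop
    have h1 : (1 : A) ∈ I := by rw [htop]; trivial
    obtain ⟨p, hp⟩ := h1
    have hq0 : (1 : Polynomial k) - Polynomial.X * p ≠ 0 := by
      intro h
      have := congrArg (Polynomial.eval 0) h
      simp at this
    have h2 := hpoly _ hq0
    rw [map_sub, map_one] at h2
    have h3 : ((1 : A) : E) = 1 := rfl
    rw [h3, h2] at hp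
    exact lt_irrefl _ hp
  obtain ⟨B, hAB, hIB⟩ := Ideal.image_subset_nonunits_valuationSubring I hI
  have hnon : ∀ z : E, (hz : z ∈ A) → (⟨z, hz⟩ : A) ∈ I → z ≠ 0 → z⁻¹ ∉ B := by
    intro z hz hzI hz0 hzB
    have h1 : z ∈ B.nonunits := hIB ⟨⟨z, hz⟩, hzI, rfl⟩
    rw [ValuationSubring.mem_nonunits_iff] at h1
    have h2 := (B.valuation_le_one_iff _).2 hzB
    rw [map_inv₀] at h2
    have h3 : B.valuation z ≠ 0 := (B.valuation.ne_zero_iff).2 hz0
    exact absurd ((inv_le_one₀ (zero_lt_iff.2 h3)).1 h2) (not_le.2 h1)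
  have hmem : ∀ z : E, O.valuation z < 1 → ∃ hz : z ∈ A, (⟨z, hz⟩ : A) ∈ I := by
    intro z hz
    exact ⟨⟨0, by simpa using hz⟩, ⟨0, by simpa using hz⟩⟩
  have hBO : B ≤ O := by
    intro z hz
    by_contra hzO
    have hz0 : z ≠ 0 := by
      rintro rfl
      exact hzO O.zero_mem
    have h1 : O.valuation z⁻¹ < 1 := by
      rw [map_inv₀]
      have h2 : 1 < O.valuation z := by
        by_contra h
        exact hzO ((O.valuation_le_one_iff z).1 (not_lt.1 h))
      exact inv_lt_one_of_one_lt₀ h2
    obtain ⟨hA, hI'⟩ := hmem _ h1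
    have h3 := hnon _ hA hI' (inv_ne_zero hz0)
    rw [inv_inv] at h3
    exact h3 hz
  have hkB : ∀ c : k, algebraMap k E c ∈ B := by
    intro c
    refine hAB (show algebraMap k E c ∈ A from ⟨Polynomial.C c, ?_⟩)
    rw [Polynomial.aeval_C, sub_self, map_zero]
    exact zero_lt_one
  have hOB := hmin B hBO hkB
  have hxA : x⁻¹ ∈ A :=
    ⟨Polynomial.X, by rw [Polynomial.aeval_X, sub_self, map_zero]; exact zero_lt_one⟩
  have hxI : (⟨x⁻¹, hxA⟩ : A) ∈ I :=
    ⟨1, by rw [mul_one, Polynomial.aeval_X, sub_self, map_zero]; exact zero_lt_one⟩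
  have h1 := hnon _ hxA hxI (inv_ne_zero hx0)
  rw [inv_inv] at h1
  exact h1 (hOB hx)

end

theorem pf_MIN : T_MIN.{u} := by
  intro k E _ _ _ _ O hO
  let S : Set (ValuationSubring E)ᵒᵈ :=
    {O' | OrderDual.ofDual O' ≤ O ∧ ∀ c : k, algebraMap k E c ∈ OrderDual.ofDual O'}
  obtain ⟨m, -, hm⟩ := zorn_le_nonempty₀ S (by
    intro c hc hchain y hy
    have hch : ∀ a ∈ c, ∀ b ∈ c, OrderDual.ofDual a ≤ OrderDual.ofDual b ∨
        OrderDual.ofDual b ≤ OrderDual.ofDual a := by
      intro a ha b hb
      rcases hchain.total ha hb with h | h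
      · exact Or.inr h
      · exact Or.inl h
    let A : Subring E := sInf ((fun a : (ValuationSubring E)ᵒᵈ =>
      (OrderDual.ofDual a).toSubring) '' c)
    have hA : ∀ z, z ∈ A ↔ ∀ a ∈ c, z ∈ OrderDual.ofDual a := by
      intro z
      rw [Subring.mem_sInf]
      constructor
      · intro h a ha
        exact h _ ⟨a, ha, rfl⟩
      · rintro h _ ⟨a, ha, rfl⟩
        exact h a ha
    let W : ValuationSubring E :=
      { A with
        mem_or_inv_mem' := by
          intro z
          by_cases hz : ∀ a ∈ c, z ∈ OrderDual.ofDual a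
          · exact Or.inl ((hA z).2 hz)
          · push Not at hz
            obtain ⟨a, ha, hza⟩ := hz
            refine Or.inr ((hA z⁻¹).2 fun b hb => ?_)
            rcases hch a ha b hb with h | h
            · exact h (((OrderDual.ofDual a).mem_or_inv_mem z).resolve_left hza)
            · exact ((OrderDual.ofDual b).mem_or_inv_mem z).resolve_left fun hzb => hza (h hzb) }
    have hW : ∀ z, z ∈ W ↔ ∀ a ∈ c, z ∈ OrderDual.ofDual a := hA
    refine ⟨OrderDual.toDual W, ⟨?_, ?_⟩, ?_⟩
    · intro z hz
      exact (hc hy).1 ((hW z).1 hz y hy)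
    · intro r
      exact (hW _).2 fun a ha => (hc ha).2 r
    · intro a ha
      show W ≤ OrderDual.ofDual a
      intro z hz
      exact (hW z).1 hz a ha) (OrderDual.toDual O) ⟨le_rfl, hO⟩
  refine ⟨OrderDual.ofDual m, hm.prop.1, rs_of_minimal _ hm.prop.2 ?_⟩
  intro O' hO' hk
  exact hm.le_of_ge (y := OrderDual.toDual O') ⟨hO'.trans hm.prop.1, hk⟩ hO'

end Pool.Agent.H53.IX
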